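import Pool.Agent.Q285.Mag.Ch
import Pool.Agent.Q285.Mag.Eval

/-!
# `β_{r,n} ≠ β_{0,0}` for an indecomposable arrangement

The arrangement `x, y, x+y, z, w, x+z+w` in `ℝ⁴` is indecomposable of rank `4` with `n = 6` hyperplanes and `42`
chambers, but `β_{4,6} ≥ 43`: besides the antipodal pairs `(C, -C)` also the loops `C → C' → C` around the flat
`x = y = 0` (rank `2`, three hyperplanes) contribute, since `(2 + 2, 3 + 3) = (4, 6)`.
-/

set_option autoImplicit false

namespace Pool.Agent.Results.MP_65cbfa_co.BettiExceeds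

open Pool.Agent.Q285.Mag

/-- the chambers of a loop -/
noncomputable def lo (q : Fin 6 × Fin 6) (i : Fin 6) : Ch nor := ch (hma q i)

/-- the chambers of an antipodal class -/
noncomputable def an (k : Fin 7) (s : Fin 16) : Ch nor := ch (yma k s)

theorem lo_inj (q : Fin 6 × Fin 6) : Function.Injective (lo q) := by
  intro i j h
  have h1 := ch_inj (chk_hma q i).1 (chk_hma q j).1 (chk_hma q i).2 (chk_hma q j).2 h
  have h2 := chk_cyc q i j
  rw [h1] at h2
  have h3 : hm (hma q j) (hma q j) = 0 := by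
    unfold hm
    rw [Nat.xor_self]
    rfl
  rw [h3] at h2
  have : ∀ i j : Fin 6, 0 = cyc' i j → i = j := by decide
  exact this i j h2

theorem lo_dist (q : Fin 6 × Fin 6) (i j : Fin 6) : (tope nor).dist (lo q i) (lo q j) = cyc i j := by
  unfold lo
  rw [dist_ch (chk_hma q i).1 (chk_hma q j).1 (chk_hma q i).2 (chk_hma q j).2]
  exact chk_cyc q i j

theorem an_inj (k : Fin 7) : Function.Injective (an k) := by
  intro i j h
  exact chk_yinj k i j (ch_inj (chk_yma k i).1 (chk_yma k j).1 (chk_yma k i).2 (chk_yma k j).2 h)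

theorem an_dist (k : Fin 7) (s t : Fin 16) : (tope nor).dist (an k s) (an k t) = hm (yma k s) (yma k t) :=
  dist_ch (chk_yma k s).1 (chk_yma k t).1 (chk_yma k s).2 (chk_yma k t).2

theorem an_add (k : Fin 7) (s t u : Fin 16) (h1 : sub s t) (h2 : sub t u) :
    (tope nor).dist (an k s) (an k u) = (tope nor).dist (an k s) (an k t) + (tope nor).dist (an k t) (an k u) := by
  rw [an_dist, an_dist, an_dist]
  have h := chk_condY k s t u
  unfold condY at h
  unfold sub at h1 h2
  rw [h1, h2] at h
  simpa using h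

/-- the side of the open interval -/
def A (q : Fin 6 × Fin 6) (C : Ch nor) : Prop := sg nor (lo q 0) (wal q) ≠ sg nor C (wal q)

theorem A_ch (q : Fin 6 × Fin 6) {m : ℕ} (g : good m = true) : A q (ch m) ↔ side q m = true := by
  unfold A lo side
  rw [sg_ch (chk_hma q 0).2, sg_ch g]
  unfold bits
  simp

theorem A_cond (q : Fin 6 × Fin 6) (C C' : Ch nor) (h1 : C ≠ lo q 0) (h2 : C' ≠ lo q 3) (h3 : C ≠ C')
    (h : (tope nor).dist (lo q 0) C + (tope nor).dist C C' + (tope nor).dist C' (lo q 3) =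
      (tope nor).dist (lo q 0) (lo q 3)) : A q C ↔ A q C' := by
  have ht1 := conn.dist_triangle (u := C) (v := C') (w := lo q 3)
  have ht2 := conn.dist_triangle (u := lo q 0) (v := C) (w := lo q 3)
  have h6 : (tope nor).dist (lo q 0) C + (tope nor).dist C (lo q 3) = (tope nor).dist (lo q 0) (lo q 3) := by
    omega
  obtain ⟨m, g, rfl⟩ := ch_surj C
  obtain ⟨m', g', rfl⟩ := ch_surj C'
  rw [A_ch q g, A_ch q g']
  rw [lo_dist] at h h6
  unfold lo at h h6
  rw [dist_ch (chk_hma q 0).1 m.2 (chk_hma q 0).2 g, dist_ch m.2 m'.2 g g',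
    dist_ch m'.2 (chk_hma q 3).1 g' (chk_hma q 3).2] at h
  rw [dist_ch (chk_hma q 0).1 m.2 (chk_hma q 0).2 g, dist_ch m.2 (chk_hma q 3).1 g (chk_hma q 3).2] at h6
  have hc : cyc 0 3 = 3 := by decide
  rw [hc] at h h6
  have n1 : m.val ≠ hma q 0 := fun e => h1 (by unfold lo; rw [← e])
  have n2 : m'.val ≠ hma q 3 := fun e => h2 (by unfold lo; rw [← e])
  have n3 : m.val ≠ m'.val := fun e => h3 (by rw [e])
  have hk := chk_condL q m m'
  unfold condL at hk
  rw [h, h6] at hk
  have hk' : side q m = side q m' := by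
    simpa [g, g', n1, n2, n3] using hk
  rw [hk']

/-- the walls -/
def wf : Fin 7 → Fin 4 → Fin 6 :=
  ![![1, 2, 3, 4], ![1, 2, 3, 4], ![1, 2, 3, 5], ![1, 2, 3, 5], ![1, 2, 4, 5], ![1, 2, 4, 5], ![1, 3, 4, 5]]

theorem wf_val : ∀ k j, (wf k j).val = walls k j := by decide

theorem yma_zero : ∀ k, yma k 0 = simp7 k := by decide

/-- the walls crossed -/
noncomputable def P (k : Fin 7) (C : Ch nor) (j : Fin 4) : Bool := sg nor (an k 0) (wf k j) != sg nor C (wf k j)

theorem P_ch (k : Fin 7) {m : ℕ} (g : good m = true) (j : Fin 4) : P k (ch m) j = crs k m j := by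
  unfold P an crs
  rw [sg_ch (chk_yma k 0).2, sg_ch g]
  unfold bits
  rw [wf_val]
  have : yma k (0 : Fin 16) = simp7 k := yma_zero k
  rw [this]

theorem P_an (k : Fin 7) (s : Fin 16) : P k (an k s) = fun j => s.val.testBit j.val := by
  funext j
  unfold an
  rw [P_ch k (chk_yma k s).2, chk_crs]

theorem an_six (k : Fin 7) : (tope nor).dist (an k 0) (an k 15) = 6 := by
  rw [an_dist]
  exact chk_six k

theorem P_mono (k : Fin 7) (C C' : Ch nor) (h : (tope nor).dist (an k 0) C + (tope nor).dist C C' +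
    (tope nor).dist C' (an k 15) = (tope nor).dist (an k 0) (an k 15)) : P k C ≤ P k C' := by
  obtain ⟨m, g, rfl⟩ := ch_surj C
  obtain ⟨m', g', rfl⟩ := ch_surj C'
  rw [an_six] at h
  unfold an at h
  rw [dist_ch (chk_yma k 0).1 m.2 (chk_yma k 0).2 g, dist_ch m.2 m'.2 g g',
    dist_ch m'.2 (chk_yma k 15).1 g' (chk_yma k 15).2] at h
  have hk := chk_condMono k m m'
  unfold condMono at hk
  have h' : hm (yma k 0) m + hm m m' + hm m' (yma k 15) = 6 := h
  rw [h'] at hk
  intro j
  rw [P_ch k g, P_ch k g']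
  have key : ∀ a b c d a' b' c' d' : Bool, (((6 : ℕ) != 6) || ((!a || a') && (!b || b') && (!c || c') &&
      (!d || d'))) = true → a ≤ a' ∧ b ≤ b' ∧ c ≤ c' ∧ d ≤ d' := by decide
  have hk' := key _ _ _ _ _ _ _ _ hk
  fin_cases j
  · exact hk'.1
  · exact hk'.2.1
  · exact hk'.2.2.1
  · exact hk'.2.2.2

theorem P_proper (k : Fin 7) (C : Ch nor) (h1 : C ≠ an k 0) (h2 : C ≠ an k 15) : P k C ≠ ⊥ ∧ P k C ≠ ⊤ := by
  obtain ⟨m, g, rfl⟩ := ch_surj C
  have n1 : m.val ≠ yma k 0 := fun e => h1 (by unfold an; rw [e]; rfl)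
  have n2 : m.val ≠ yma k 15 := fun e => h2 (by unfold an; rw [e]; rfl)
  have hk := chk_condP k m
  unfold condP at hk
  have b1 : (m.val == yma k 0) = false := by simpa using n1
  have b2 : (m.val == yma k 15) = false := by simpa using n2
  rw [g, b1, b2] at hk
  have key : ∀ a b c d : Bool, ((!true) || false || false || ((a || b || c || d) && !(a && b && c && d))) = true →
      ¬ (a = false ∧ b = false ∧ c = false ∧ d = false) ∧ ¬ (a = true ∧ b = true ∧ c = true ∧ d = true) := by
    decide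
  have hk' := key _ _ _ _ hk
  constructor
  · intro e
    refine hk'.1 ⟨?_, ?_, ?_, ?_⟩
    · rw [← P_ch k g, e]; rfl
    · rw [← P_ch k g, e]; rfl
    · rw [← P_ch k g, e]; rfl
    · rw [← P_ch k g, e]; rfl
  · intro e
    refine hk'.2 ⟨?_, ?_, ?_, ?_⟩
    · rw [← P_ch k g, e]; rfl
    · rw [← P_ch k g, e]; rfl
    · rw [← P_ch k g, e]; rfl
    · rw [← P_ch k g, e]; rfl

theorem lower : 43 ≤ betti (tope nor) 4 6 := by
  have hcard : Fintype.card ((Fin 6 × Fin 6) ⊕ Fin 7) = 43 := by simp
  rw [← hcard]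
  refine card_le_betti (tope nor) 4 6
    (Sum.elim (fun q => loopC (lo q)) (fun k => antiC (an k)))
    (Sum.elim (fun q => fun' (loopF (lo q 0) (lo q 3) (A q)))
      (fun k => fun' (antiF (an k 0) (an k 15) (P k)))) ?_ ?_ ?_
  · rintro (q | k)
    · exact loopC_mem _ (lo_inj q) (lo_dist q)
    · exact antiC_mem _ (an_inj k) (an_add k) (an_six k)
  · rintro (q | k)
    · have h := loop_cocycle (tope nor) conn (A_cond q)
      rw [lo_dist] at h
      exact h
    · have h := anti_cocycle (tope nor) conn (P_mono k) (P_proper k)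
      rw [an_six] at h
      exact h
  · rintro (q | k) (q' | k')
    · by_cases hq : q = q'
      · subst hq
        simp only [Sum.elim_inl, if_true]
        refine loopF_loopC (lo_inj q) ?_ ?_ ?_ ?_
        · exact (A_ch q (chk_hma q 1).2).2 (chk_side q).1
        · exact (A_ch q (chk_hma q 2).2).2 (chk_side q).2.1
        · intro h
          have := (A_ch q (chk_hma q 4).2).1 h
          rw [(chk_side q).2.2.1] at this
          exact absurd this (by decide)
        · intro h
          have := (A_ch q (chk_hma q 5).2).1 h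
          rw [(chk_side q).2.2.2] at this
          exact absurd this (by decide)
      · rw [if_neg (fun h => hq (Sum.inl_injective h))]
        refine loopF_loopC_ne fun h => hq ?_
        exact (chk_start q' q (ch_inj (chk_hma q' 0).1 (chk_hma q 0).1 (chk_hma q' 0).2 (chk_hma q 0).2 h)).symm
    · rw [if_neg (by simp)]
      exact loopF_antiC ((an_inj k').ne (by decide))
    · rw [if_neg (by simp)]
      exact antiF_loopC ((an_inj k).ne (by decide))
    · by_cases hk : k = k'
      · subst hk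
        simp only [Sum.elim_inr, if_true]
        exact antiF_antiC (P_an k)
      · rw [if_neg (fun h => hk (Sum.inr_injective h))]
        refine antiF_antiC_ne fun h => hk ?_
        exact (chk_astart k' k (ch_inj (chk_yma k' 0).1 (chk_yma k 0).1 (chk_yma k' 0).2 (chk_yma k 0).2 h)).symm

/-- There is an indecomposable arrangement of `6` hyperplanes of rank `4` in `ℝ⁴` with `β_{0,0} = 42` (it has
`42` chambers) and `β_{4,6} ≥ 43`; so Q1 has a negative answer. -/
theorem result :
    (∃ α : Fin 6 → Fin 4 → ℝ, IsArrangement α ∧ Indecomposable α ∧ rank α = 4 ∧ Nat.card (Ch α) = 42 ∧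
      betti (tope α) 0 0 = 42 ∧ 43 ≤ betti (tope α) 4 6) ∧
    ¬ ∀ (d n : ℕ) (α : Fin n → Fin d → ℝ), IsArrangement α → Indecomposable α → 2 ≤ rank α →
      betti (tope α) 0 0 = betti (tope α) (rank α) n := by
  have h0 : betti (tope nor) 0 0 = 42 := by rw [betti_zero, card_ch]
  refine ⟨⟨nor, isArrangement_nor, indecomposable_nor, rank_nor, card_ch, h0, lower⟩, fun h => ?_⟩
  have h1 := h 4 6 nor isArrangement_nor indecomposable_nor (by rw [rank_nor]; norm_num)
  rw [h0, rank_nor] at h1
  have h2 := lower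
  omega

end Pool.Agent.Results.MP_65cbfa_co.BettiExceeds
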